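import Mathlib

/-!
Solomon descent elements, the modules they generate, self-dual modules and trivial source modules.

Lean multiplies permutations from right to left: `(σ * τ) i = σ (τ i)`. For the symmetric group
acting on the right, the product `σ τ` means: first `σ`, then `τ`. So the right ideal
`Ξ F Sₙ` of the group algebra of `Sₙ` acting on the right is the set of all `a * Ξ` in the group
algebra `MonoidAlgebra F (Perm (Fin n))` of Lean, and right multiplication by `σ` becomes left
multiplication by `σ`.
-/

set_option autoImplicit false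

namespace Pool.Agent.Q109.Desc

open Equiv

universe u

variable {n : ℕ}

/-- `S(q)`: the partial sums `q₁, q₁ + q₂, …, q₁ + ⋯ + q_{k-1}` of the composition `q`. -/
def breaks (q : Composition n) : Set ℕ := {i | ∃ k, 0 < k ∧ k < q.length ∧ q.sizeUpTo k = i}

/-- The descents of `σ`: the `i` with `1 ≤ i ≤ n - 1` such that the image of the `i`-th point is
larger than the image of the `(i+1)`-st point. The points are `0, …, n - 1` in Lean. -/
def descents (σ : Perm (Fin n)) : Set ℕ :=
  {i | ∃ (j : ℕ) (h : j + 1 < n), i = j + 1 ∧ σ ⟨j + 1, h⟩ < σ ⟨j, Nat.lt_of_succ_lt h⟩}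

variable (F : Type u) [Field F]

open Classical in
/-- The Solomon descent element: the sum of all `σ` with `Des(σ) ⊆ S(q)`. -/
noncomputable def Xi (q : Composition n) : MonoidAlgebra F (Perm (Fin n)) :=
  ∑ σ : Perm (Fin n), if descents σ ⊆ breaks q then MonoidAlgebra.single σ 1 else 0

/-- The underlying space of `X^q_F`: all products `a * Ξ`. -/
noncomputable def X (q : Composition n) : Submodule F (MonoidAlgebra F (Perm (Fin n))) :=
  LinearMap.range (LinearMap.mulRight F (Xi F q))

lemma mem_X {q : Composition n} {x : MonoidAlgebra F (Perm (Fin n))} :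
    x ∈ X F q ↔ ∃ a, a * Xi F q = x := Iff.rfl

lemma mul_mem_X (q : Composition n) (σ : Perm (Fin n)) {x : MonoidAlgebra F (Perm (Fin n))}
    (hx : x ∈ X F q) : MonoidAlgebra.single σ 1 * x ∈ X F q := by
  obtain ⟨a, rfl⟩ := hx
  exact ⟨MonoidAlgebra.single σ 1 * a, mul_assoc _ _ _⟩

/-- The module `X^q_F`: `σ` acts by `x ↦ σ * x`. -/
noncomputable def rep (q : Composition n) : Representation F (Perm (Fin n)) (X F q) where
  toFun σ :=
    { toFun := fun x => ⟨MonoidAlgebra.single σ 1 * x.1, mul_mem_X F q σ x.2⟩
      map_add' := fun x y => Subtype.ext (mul_add _ _ _)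
      map_smul' := fun t x => Subtype.ext (mul_smul_comm _ _ _) }
  map_one' := LinearMap.ext fun x => Subtype.ext (one_mul x.1)
  map_mul' σ τ := by
    refine LinearMap.ext fun x => Subtype.ext ?_
    change (MonoidAlgebra.single (σ * τ) 1 * x.1 : MonoidAlgebra F (Perm (Fin n))) =
      MonoidAlgebra.single σ 1 * (MonoidAlgebra.single τ 1 * x.1)
    rw [← mul_assoc, MonoidAlgebra.single_mul_single, mul_one]

section rep

variable {F} {G V : Type*} [Group G] [AddCommGroup V] [Module F V]

/-- A module is self-dual if it is isomorphic to its dual module. -/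
def SelfDual (ρ : Representation F G V) : Prop :=
  ∃ φ : V ≃ₗ[F] Module.Dual F V, ∀ (g : G) (x : V), φ (ρ g x) = ρ.dual g (φ x)

variable (F) in
/-- The permutation module of a `G`-set `Ω`: the functions on `Ω`, where `g` maps `f` to the
function `ω ↦ f (g⁻¹ ω)`. -/
def permRep (G Ω : Type*) [Group G] [MulAction G Ω] : Representation F G (Ω → F) where
  toFun g :=
    { toFun := fun f ω => f (g⁻¹ • ω)
      map_add' := fun _ _ => rfl
      map_smul' := fun _ _ => rfl }
  map_one' := by
    ext f ω
    simp
  map_mul' g h := by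
    ext f ω
    simp [mul_smul]

/-- A trivial source module: a direct summand of the permutation module of a finite `G`-set. -/
def TrivialSource (ρ : Representation F G V) : Prop :=
  ∃ (Ω : Type) (_ : Finite Ω) (_ : MulAction G Ω) (i : V →ₗ[F] (Ω → F)) (r : (Ω → F) →ₗ[F] V),
    (∀ (g : G) (x : V), i (ρ g x) = permRep F G Ω g (i x)) ∧
    (∀ (g : G) (y : Ω → F), r (permRep F G Ω g y) = ρ g (r y)) ∧ ∀ x, r (i x) = x

end rep

end Pool.Agent.Q109.Desc
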