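import Pool.Agent.Q109.Desc.Defs

/-!
The module `X^(2,1,1)` in characteristic two.
-/

set_option autoImplicit false
set_option linter.unusedSectionVars false

namespace Pool.Agent.Q109.Desc

open Equiv

universe u

/-! ### permutation modules and four-cycles -/

lemma four_orbit {Ω : Type*} (T : Ω → Ω) (hT : ∀ ω, T (T (T (T ω))) = ω) {F : Type*} [Field F]
    [CharP F 2] (h : Ω → F) (h1 : ∀ ω, h (T ω) = h ω) (h2 : ∀ ω, T (T ω) = ω → h ω = 0) :
    ∃ w : Ω → F, ∀ ω, h ω = w ω + w (T ω) + w (T (T ω)) + w (T (T (T ω))) := by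
  classical
  let s : Setoid Ω :=
    { r := fun x y => y = x ∨ y = T x ∨ y = T (T x) ∨ y = T (T (T x))
      iseqv :=
        { refl := fun x => Or.inl rfl
          symm := by
            rintro x y (rfl | rfl | rfl | rfl)
            · exact Or.inl rfl
            · right; right; right; rw [hT]
            · right; right; left; rw [hT]
            · right; left; rw [hT]
          trans := by
            rintro x y z (rfl | rfl | rfl | rfl) (rfl | rfl | rfl | rfl) <;> simp [hT] } }
  let r : Ω → Ω := fun ω => (Quotient.mk s ω).out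
  have hr : ∀ ω, ω = r ω ∨ ω = T (r ω) ∨ ω = T (T (r ω)) ∨ ω = T (T (T (r ω))) :=
    fun ω => Quotient.mk_out (s := s) ω
  have hrT : ∀ ω, r (T ω) = r ω := by
    intro ω
    have : Quotient.mk s (T ω) = Quotient.mk s ω := by
      apply Quotient.sound
      change ω = T ω ∨ ω = T (T ω) ∨ ω = T (T (T ω)) ∨ ω = T (T (T (T ω)))
      right; right; right; rw [hT]
    change (Quotient.mk s (T ω)).out = _
    rw [this]
  refine ⟨fun ω => if r ω = ω then h ω else 0, fun ω => ?_⟩
  simp only [hrT, h1]
  by_cases h0 : h ω = 0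
  · simp [h0]
  have n2 : T (T ω) ≠ ω := fun h => h0 (h2 ω h)
  have n1 : T ω ≠ ω := fun h => n2 (by rw [h, h])
  have n3 : T (T (T ω)) ≠ ω := by
    intro h
    apply n1
    have := hT ω
    rw [h] at this
    exact this
  have n12 : T ω ≠ T (T ω) := by
    intro h
    have := congrArg (fun x => T (T (T x))) h
    simp only [hT] at this
    exact n1 this.symm
  have n13 : T ω ≠ T (T (T ω)) := by
    intro h
    have := congrArg (fun x => T (T (T x))) h
    simp only [hT] at this
    exact n2 this.symm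
  have n23 : T (T ω) ≠ T (T (T ω)) := by
    intro h
    have := congrArg (fun x => T (T x)) h
    simp only [hT] at this
    exact n1 this.symm
  have hr' : r ω = ω ∨ r ω = T ω ∨ r ω = T (T ω) ∨ r ω = T (T (T ω)) := by
    rcases hr ω with h | h | h | h
    · exact Or.inl h.symm
    · right; right; right
      have := congrArg (fun x => T (T (T x))) h
      simp only [hT] at this
      exact this.symm
    · right; right; left
      have := congrArg (fun x => T (T x)) h
      simp only [hT] at this
      exact this.symm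
    · right; left
      have := congrArg T h
      simp only [hT] at this
      exact this.symm
  rcases hr' with h | h | h | h <;> rw [h] <;> simp [n1, n2, n3, n12, n13, n23, n1.symm, n2.symm,
    n3.symm, n12.symm, n13.symm, n23.symm]

lemma trivialSource_key {F : Type u} [Field F] [CharP F 2] {G V : Type*} [Group G]
    [AddCommGroup V] [Module F V] {ρ : Representation F G V} (hρ : TrivialSource ρ) (g : G)
    (hg : g ^ 4 = 1) (x : V) (hx : x + ρ g x + ρ g (ρ g x) + ρ g (ρ g (ρ g x)) = 0) :
    ∃ w : V, x + ρ g (ρ g x) = w + ρ g w + ρ g (ρ g w) + ρ g (ρ g (ρ g w)) := by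
  obtain ⟨Ω, _, _, i, r, hi, hr, hri⟩ := hρ
  let T : Ω → Ω := fun ω => g⁻¹ • ω
  have hT : ∀ ω, T (T (T (T ω))) = ω := by
    intro ω
    change g⁻¹ • g⁻¹ • g⁻¹ • g⁻¹ • ω = ω
    rw [smul_smul, smul_smul, smul_smul]
    have : g⁻¹ * (g⁻¹ * (g⁻¹ * g⁻¹)) = 1 := by
      have h1 : g⁻¹ * (g⁻¹ * (g⁻¹ * g⁻¹)) = (g ^ 4)⁻¹ := by group
      rw [h1, hg, inv_one]
    rw [mul_assoc, mul_assoc, this, one_smul]
  have h2 : (2 : F) = 0 := CharTwo.two_eq_zero
  let h : Ω → F := fun ω => i x ω + i x (T (T ω))
  have hsum : ∀ ω, i x ω + i x (T ω) + i x (T (T ω)) + i x (T (T (T ω))) = 0 := by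
    intro ω
    have := congrFun (congrArg i hx) ω
    rw [map_add, map_add, map_add, hi, hi, hi, hi, hi, hi, map_zero] at this
    exact this
  obtain ⟨w, hw⟩ := four_orbit T hT h
    (fun ω => by
      change i x (T ω) + i x (T (T (T ω))) = i x ω + i x (T (T ω))
      linear_combination hsum ω - (i x ω + i x (T (T ω))) * h2)
    (fun ω hω => by
      change i x ω + i x (T (T ω)) = 0
      rw [hω]
      linear_combination i x ω * h2)
  refine ⟨r w, ?_⟩
  rw [← hr, ← hr, ← hr, ← map_add, ← map_add, ← map_add]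
  have e : i x + permRep F G Ω g (permRep F G Ω g (i x)) = w + permRep F G Ω g w +
      permRep F G Ω g (permRep F G Ω g w) +
      permRep F G Ω g (permRep F G Ω g (permRep F G Ω g w)) := by
    funext ω
    exact hw ω
  rw [← e, map_add, hr, hr, hri]

/-! ### functions on pairs -/

/-- functions on ordered pairs with values in the field of two elements -/
abbrev Fn := Fin 4 → Fin 4 → ZMod 2

/-- action on functions on pairs -/
def pact (τ : Perm (Fin 4)) (f : Fn) : Fn := fun i j => f (τ⁻¹ i) (τ⁻¹ j)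

/-- the standard order -/
def lt : Fn := fun i j => if i < j then 1 else 0

/-- an edge -/
def ed (i j : Fin 4) : Fn := fun a b => if (a = i ∧ b = j) ∨ (a = j ∧ b = i) then 1 else 0

section algebra

variable (F : Type u) [Field F] [CharP F 2]

/-- the group algebra element of a function on pairs -/
noncomputable def C (f : Fn) : MonoidAlgebra F (Perm (Fin 4)) :=
  ∑ σ : Perm (Fin 4), MonoidAlgebra.single σ (ZMod.castHom (dvd_refl 2) F (f (σ 0) (σ 1)))

lemma C_add (f g : Fn) : C F (f + g) = C F f + C F g := by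
  rw [C, C, C, ← Finset.sum_add_distrib]
  refine Finset.sum_congr rfl fun σ _ => ?_
  rw [Pi.add_apply, Pi.add_apply, map_add, MonoidAlgebra.single_add]

lemma C_zero : C F 0 = 0 := by
  rw [C]
  refine Finset.sum_eq_zero fun σ _ => ?_
  simp

lemma C_act (τ : Perm (Fin 4)) (f : Fn) :
    MonoidAlgebra.single τ 1 * C F f = C F (pact τ f) := by
  rw [C, Finset.mul_sum, C]
  refine Fintype.sum_equiv (Equiv.mulLeft τ) _ _ fun σ => ?_
  rw [MonoidAlgebra.single_mul_single, one_mul]
  simp [pact]

lemma C_coeff (f : Fn) (σ : Perm (Fin 4)) :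
    (C F f).coeff σ = ZMod.castHom (dvd_refl 2) F (f (σ 0) (σ 1)) := by
  rw [C, MonoidAlgebra.coeff_sum, Finsupp.finsetSum_apply]
  rw [Finset.sum_eq_single σ]
  · simp
  · intro τ _ hτ
    simp [hτ]
  · intro h; exact absurd (Finset.mem_univ σ) h

/-- the composition `(2, 1, 1)` of `4` -/
def q211 : Composition 4 := ⟨[2, 1, 1], by simp, rfl⟩

omit [CharP F 2] in
lemma descents_sub (σ : Perm (Fin 4)) : descents σ ⊆ breaks q211 ↔ σ 0 < σ 1 := by
  constructor
  · intro h
    by_contra hc
    have h1 : σ 1 < σ 0 := lt_of_le_of_ne (not_lt.1 hc) (fun h => by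
      have := σ.injective h
      simp at this)
    have h2 : 1 ∈ breaks q211 := h ⟨0, by norm_num, rfl, h1⟩
    obtain ⟨k, hk, hk', hk''⟩ := h2
    have hk3 : k < 3 := hk'
    interval_cases k <;> revert hk'' <;> decide
  · rintro h i ⟨j, hj, rfl, hij⟩
    have hj' : j < 3 := by omega
    interval_cases j
    · exact absurd h (not_lt.2 hij.le)
    · exact ⟨1, by norm_num, by decide, by decide⟩
    · exact ⟨2, by norm_num, by decide, by decide⟩

lemma Xi_eq : Xi F q211 = C F lt := by
  classical
  rw [Xi, C]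
  refine Finset.sum_congr rfl fun σ _ => ?_
  by_cases h : σ 0 < σ 1
  · rw [if_pos ((descents_sub σ).2 h), lt, if_pos h, map_one]
  · rw [if_neg (fun h' => h ((descents_sub σ).1 h')), lt, if_neg h, map_zero,
      MonoidAlgebra.single_zero]

lemma lt_mem : C F lt ∈ X F q211 := ⟨1, by
  rw [← Xi_eq]
  exact one_mul _⟩

lemma act_mem (τ : Perm (Fin 4)) {f : Fn} (h : C F f ∈ X F q211) : C F (pact τ f) ∈ X F q211 := by
  rw [← C_act]
  exact mul_mem_X F q211 τ h

lemma ed_mem (i j : Fin 4) (h : i ≠ j) : C F (ed i j) ∈ X F q211 := by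
  obtain ⟨τ, hτ⟩ : ∃ τ : Perm (Fin 4), ed i j = pact τ (pact (swap 0 1) lt + lt) := by
    revert i j
    decide
  rw [hτ]
  refine act_mem F τ ?_
  rw [C_add]
  exact Submodule.add_mem _ (act_mem F _ (lt_mem F)) (lt_mem F)

/-- an element of the module -/
noncomputable def el (f : Fn) (h : C F f ∈ X F q211) : X F q211 := ⟨C F f, h⟩

lemma rep_el (τ : Perm (Fin 4)) (f : Fn) (h : C F f ∈ X F q211) :
    rep F q211 τ (el F f h) = el F (pact τ f) (act_mem F τ h) := Subtype.ext (C_act F τ f)

/-- every element of the module is a combination of translates -/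
lemma X_induction {p : X F q211 → Prop} (h0 : p 0) (hadd : ∀ x y, p x → p y → p (x + y))
    (hs : ∀ (t : F) (τ : Perm (Fin 4)), p (t • el F (pact τ lt) (act_mem F τ (lt_mem F)))) :
    ∀ x, p x := by
  rintro ⟨_, a, rfl⟩
  induction a using MonoidAlgebra.induction_linear with
  | zero =>
    refine (congrArg p (Subtype.ext ?_)).mpr h0
    exact zero_mul (Xi F q211)
  | add x y hx hy =>
    refine (congrArg p (Subtype.ext ?_)).mpr (hadd _ _ hx hy)
    exact add_mul x y (Xi F q211)
  | single τ t =>
    refine (congrArg p (Subtype.ext ?_)).mpr (hs t τ)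
    change MonoidAlgebra.single τ t * Xi F q211 = t • C F (pact τ lt)
    rw [Xi_eq, ← C_act, ← smul_mul_assoc, MonoidAlgebra.smul_single, smul_eq_mul, mul_one]

/-! ### the four-cycle -/

/-- the four-cycle -/
def cyc : Perm (Fin 4) := finRotate 4

lemma cyc_pow : cyc ^ 4 = 1 := by decide

theorem not_trivialSource : ¬ TrivialSource (rep F q211) := by
  intro h
  have hx0 : pact (swap 0 1) lt + pact cyc (pact (swap 0 1) lt) +
      pact cyc (pact cyc (pact (swap 0 1) lt)) +
      pact cyc (pact cyc (pact cyc (pact (swap 0 1) lt))) = 0 := by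
    decide
  have hm := act_mem F (swap 0 1) (lt_mem F)
  obtain ⟨w, hw⟩ := trivialSource_key h cyc cyc_pow (el F _ hm) (by
    rw [rep_el, rep_el, rep_el]
    refine Subtype.ext ?_
    change C F _ + C F _ + C F _ + C F _ = 0
    rw [← C_add, ← C_add, ← C_add, hx0, C_zero])
  -- the coefficient at a permutation with `0 ↦ 0`, `1 ↦ 2`
  let σ : Perm (Fin 4) := swap 1 2
  have key : ∀ w : X F q211, (w + rep F q211 cyc w + rep F q211 cyc (rep F q211 cyc w) +
      rep F q211 cyc (rep F q211 cyc (rep F q211 cyc w))).1.coeff σ = 0 := by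
    refine X_induction F ?_ ?_ ?_
    · simp
    · intro x y hx hy
      simp only [map_add]
      have : x + y + (rep F q211 cyc x + rep F q211 cyc y) +
          (rep F q211 cyc (rep F q211 cyc x) + rep F q211 cyc (rep F q211 cyc y)) +
          (rep F q211 cyc (rep F q211 cyc (rep F q211 cyc x)) +
            rep F q211 cyc (rep F q211 cyc (rep F q211 cyc y))) =
          (x + rep F q211 cyc x + rep F q211 cyc (rep F q211 cyc x) +
            rep F q211 cyc (rep F q211 cyc (rep F q211 cyc x))) +
          (y + rep F q211 cyc y + rep F q211 cyc (rep F q211 cyc y) +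
            rep F q211 cyc (rep F q211 cyc (rep F q211 cyc y))) := by abel
      rw [this]
      change (_ + _ : MonoidAlgebra F (Perm (Fin 4))).coeff σ = 0
      rw [MonoidAlgebra.coeff_add, Finsupp.add_apply, hx, hy, add_zero]
    · intro t τ
      simp only [map_smul, rep_el]
      rw [← smul_add, ← smul_add, ← smul_add]
      change (t • (C F _ + C F _ + C F _ + C F _)).coeff σ = 0
      rw [← C_add, ← C_add, ← C_add, MonoidAlgebra.coeff_smul, Finsupp.smul_apply, C_coeff]
      have : ∀ τ : Perm (Fin 4), (pact τ lt + pact cyc (pact τ lt) +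
          pact cyc (pact cyc (pact τ lt)) + pact cyc (pact cyc (pact cyc (pact τ lt)))) 0 2 = 0 := by
        decide
      change t • ZMod.castHom (dvd_refl 2) F ((pact τ lt + pact cyc (pact τ lt) +
          pact cyc (pact cyc (pact τ lt)) + pact cyc (pact cyc (pact cyc (pact τ lt)))) 0 2) = 0
      rw [this τ, map_zero, smul_zero]
  have h1 := key w
  rw [← hw, rep_el, rep_el] at h1
  change (C F _ + C F _).coeff σ = 0 at h1
  rw [← C_add, C_coeff] at h1
  have h2 : (pact (swap 0 1) lt + pact cyc (pact cyc (pact (swap 0 1) lt))) (σ 0) (σ 1) = 1 := by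
    decide
  rw [h2, map_one] at h1
  exact one_ne_zero h1

/-! ### the invariant forms -/

theorem not_selfDual : ¬ SelfDual (rep F q211) := by
  rintro ⟨φ, hφ⟩
  -- invariance
  have inv : ∀ (τ : Perm (Fin 4)) (x y : X F q211),
      φ (rep F q211 τ x) (rep F q211 τ y) = φ x y := by
    intro τ x y
    rw [hφ]
    change φ x (rep F q211 τ⁻¹ (rep F q211 τ y)) = φ x y
    rw [← Module.End.mul_apply, ← map_mul, inv_mul_cancel, map_one, Module.End.one_apply]
  let Ξ : X F q211 := el F lt (lt_mem F)
  let e : ∀ i j : Fin 4, i ≠ j → X F q211 := fun i j h => el F (ed i j) (ed_mem F i j h)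
  have he : ∀ (τ : Perm (Fin 4)) (i j k l : Fin 4) (h : i ≠ j) (h' : k ≠ l),
      ((τ i = k ∧ τ j = l) ∨ (τ i = l ∧ τ j = k)) →
      rep F q211 τ (e i j h) = e k l h' := by
    intro τ i j k l h h' hkl
    rw [rep_el]
    refine Subtype.ext ?_
    change C F _ = C F _
    congr 1
    have : ∀ (τ : Perm (Fin 4)) (i j : Fin 4), pact τ (ed i j) = ed (τ i) (τ j) := by decide
    rw [this]
    rcases hkl with ⟨rfl, rfl⟩ | ⟨rfl, rfl⟩
    · rfl
    · revert h h'
      have : ∀ i j : Fin 4, ed i j = ed j i := by decide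
      intro _ _
      exact this _ _
  have h2 : (2 : F) = 0 := CharTwo.two_eq_zero
  -- adjacent transpositions
  have hL : ∀ (a b : Fin 4) (h : a ≠ b), ed a b = lt + pact (swap a b) lt → ∀ x,
      φ x (e a b h) = φ x Ξ + φ (rep F q211 (swap a b) x) Ξ := by
    intro a b h hab x
    have h1 : e a b h = Ξ + rep F q211 (swap a b) Ξ := by
      rw [rep_el]
      refine Subtype.ext ?_
      change C F _ = C F _ + C F _
      rw [← C_add, hab]
    rw [h1, map_add]
    congr 1
    rw [← inv (swap a b) x, ← Module.End.mul_apply, ← map_mul, swap_mul_self, map_one,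
      Module.End.one_apply]
  have L01 := hL 0 1 (by decide) (by decide)
  have L12 := hL 1 2 (by decide) (by decide)
  have L23 := hL 2 3 (by decide) (by decide)
  -- the six equations
  have E1 := L12 (e 0 1 (by decide))
  rw [he (swap 1 2) 0 1 0 2 (by decide) (by decide) (by decide)] at E1
  have E2 := L01 (e 1 2 (by decide))
  rw [he (swap 0 1) 1 2 0 2 (by decide) (by decide) (by decide)] at E2
  have E3 := L12 (e 2 3 (by decide))
  rw [he (swap 1 2) 2 3 1 3 (by decide) (by decide) (by decide)] at E3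
  have E4 := L23 (e 1 2 (by decide))
  rw [he (swap 2 3) 1 2 1 3 (by decide) (by decide) (by decide)] at E4
  have E5 := L01 (e 0 3 (by decide))
  rw [he (swap 0 1) 0 3 1 3 (by decide) (by decide) (by decide)] at E5
  have E6 := L23 (e 0 3 (by decide))
  rw [he (swap 2 3) 0 3 0 2 (by decide) (by decide) (by decide)] at E6
  -- all left hand sides agree
  have I : ∀ (τ : Perm (Fin 4)) (i j k l : Fin 4) (h : i ≠ j) (h' : k ≠ l),
      ((τ 0 = i ∧ τ 1 = j) ∨ (τ 0 = j ∧ τ 1 = i)) → ((τ 1 = k ∧ τ 2 = l) ∨ (τ 1 = l ∧ τ 2 = k)) →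
      φ (e i j h) (e k l h') = φ (e 0 1 (by decide)) (e 1 2 (by decide)) := by
    intro τ i j k l h h' h1 h2
    rw [← inv τ (e 0 1 (by decide)), he τ 0 1 i j (by decide) h h1,
      he τ 1 2 k l (by decide) h' h2]
  have I2 := I (swap 0 2) 1 2 0 1 (by decide) (by decide) (by decide) (by decide)
  have I3 := I (swap 0 3 * swap 1 2) 2 3 1 2 (by decide) (by decide) (by decide) (by decide)
  have I4 := I cyc 1 2 2 3 (by decide) (by decide) (by decide) (by decide)
  have I5 := I cyc⁻¹ 0 3 0 1 (by decide) (by decide) (by decide) (by decide)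
  have I6 := I (swap 1 3) 0 3 2 3 (by decide) (by decide) (by decide) (by decide)
  -- the functional vanishes on the three perfect matchings
  have V1 : φ (e 0 1 (by decide) + e 2 3 (by decide)) Ξ = 0 := by
    rw [map_add, LinearMap.add_apply]
    linear_combination -E1 - E3 + E2 + E4 - I2 + I3 - I4 + φ (e 1 2 (by decide)) Ξ * h2
  have V2 : φ (e 0 2 (by decide) + e 1 3 (by decide)) Ξ = 0 := by
    rw [map_add, LinearMap.add_apply]
    linear_combination -E2 - E4 + I2 + I4 +
      (φ (e 0 1 (by decide)) (e 1 2 (by decide)) - φ (e 1 2 (by decide)) Ξ) * h2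
  have V3 : φ (e 0 3 (by decide) + e 1 2 (by decide)) Ξ = 0 := by
    rw [map_add, LinearMap.add_apply]
    linear_combination -E5 - E4 + I5 + I4 +
      (φ (e 0 1 (by decide)) (e 1 2 (by decide)) - φ (e 1 3 (by decide)) Ξ) * h2
  have hsum : ∀ (i j k l : Fin 4) (h : i ≠ j) (h' : k ≠ l) (hf : C F (ed i j + ed k l) ∈ X F q211),
      el F (ed i j + ed k l) hf = e i j h + e k l h' := by
    intro i j k l h h' hf
    exact Subtype.ext (C_add F _ _)
  have hv : C F (ed 0 1 + ed 2 3) ∈ X F q211 := by
    rw [C_add]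
    exact Submodule.add_mem _ (ed_mem F 0 1 (by decide)) (ed_mem F 2 3 (by decide))
  let v : X F q211 := el F (ed 0 1 + ed 2 3) hv
  have hv0 : ∀ y, φ v y = 0 := by
    refine X_induction F ?_ ?_ ?_
    · rw [map_zero]
    · intro x y hx hy
      rw [map_add, hx, hy, add_zero]
    · intro t τ
      rw [map_smul]
      have h3 : φ v (el F (pact τ lt) (act_mem F τ (lt_mem F))) = φ (rep F q211 τ⁻¹ v) Ξ := by
        rw [← rep_el, ← inv τ (rep F q211 τ⁻¹ v), ← Module.End.mul_apply, ← map_mul,
          mul_inv_cancel, map_one, Module.End.one_apply]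
      rw [h3, rep_el]
      have h4 : ∀ τ : Perm (Fin 4), pact τ (ed 0 1 + ed 2 3) = ed 0 1 + ed 2 3 ∨
          pact τ (ed 0 1 + ed 2 3) = ed 0 2 + ed 1 3 ∨
          pact τ (ed 0 1 + ed 2 3) = ed 0 3 + ed 1 2 := by decide
      have h5 : ∀ (f : Fn) (hf : C F f ∈ X F q211), (f = ed 0 1 + ed 2 3 ∨ f = ed 0 2 + ed 1 3 ∨
          f = ed 0 3 + ed 1 2) → φ (el F f hf) Ξ = 0 := by
        rintro f hf (rfl | rfl | rfl)
        · rw [hsum 0 1 2 3 (by decide) (by decide)]; exact V1
        · rw [hsum 0 2 1 3 (by decide) (by decide)]; exact V2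
        · rw [hsum 0 3 1 2 (by decide) (by decide)]; exact V3
      rw [h5 _ _ (h4 τ⁻¹), smul_zero]
  have hφv : φ v = 0 := LinearMap.ext hv0
  have hv1 : v = 0 := (LinearEquiv.map_eq_zero_iff φ).1 hφv
  have h3 : (C F (ed 0 1 + ed 2 3)).coeff 1 = 0 := by
    have : C F (ed 0 1 + ed 2 3) = 0 := congrArg Subtype.val hv1
    rw [this]; rfl
  rw [C_coeff] at h3
  have h4 : (ed 0 1 + ed 2 3) ((1 : Perm (Fin 4)) 0) ((1 : Perm (Fin 4)) 1) = 1 := by decide
  rw [h4, map_one] at h3
  exact one_ne_zero h3

end algebra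

end Pool.Agent.Q109.Desc
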